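import Mathlib

/-!
Random noise added to a graph in several rounds.
-/

namespace Pool.Agent.H25.PN

/-- The pairs of vertices whose label is zero in one of the first `j` labellings. -/
def noise {n J Q : ℕ} (x : Fin J → Sym2 (Fin n) → Fin Q) (j : ℕ) : SimpleGraph (Fin n) :=
  SimpleGraph.fromEdgeSet {e | ∃ i : Fin J, i.1 < j ∧ (x i e).1 = 0}

/-- The complete graph on `A`, without other edges. -/
def complete {n : ℕ} (A : Finset (Fin n)) : SimpleGraph (Fin n) :=
  SimpleGraph.fromEdgeSet (A.sym2 : Set (Sym2 (Fin n)))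

end Pool.Agent.H25.PN
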