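import Pool.Agent.H25.PN.Main

/-!
Quantified circuits, and the correlation with the clique property.
-/

namespace Pool.Agent.H25.PN

open Finset
open Pool.Agent.H25.NM Pool.Agent.H25.NP Pool.Agent.H25.PC

set_option linter.unusedSectionVars false

section

variable {n L l k Q J s m : ℕ}

/-- Quantified circuits. -/
theorem quantified {q r t : ℕ} (hm : 2 ≤ m) (hQ2 : 2 ≤ Q) (hL : 1 ≤ L) (hk : 1 ≤ k)
    (hnL : n ≤ 2 ^ L) (hn : 9 * k * m ^ 2 * L * Q ^ (2 * m) ≤ n)
    (hJ : J * 2 ^ (2 * l + 3 * m + 4) ≤ Q ^ (m + 1) ^ 2) (hs : 2 ^ q * (s + 1) ≤ 2 ^ l)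
    (B : Fin q → Bool) (C : (Fin q → Bool) → Circuit n s) (out : (Fin q → Bool) → Fin s)
    (ht0 : 1 ≤ t) (hr : ∀ z, (C z).special.card ≤ r)
    (ht : ∀ z, ∀ i ∈ (C z).special, ((C z).ins i).card ≤ t) (G : SimpleGraph (Fin n))
    (W : Finset (Fin J × (Fin J → Sym2 (Fin n) → Fin Q) × Finset (Fin n)))
    (hW : ∀ y ∈ W, y.2.2.card = k ∧
      ¬ (Quantified q B (fun z => (C z).fn (out z) (G ⊔ noise y.2.1 y.1)) ↔
        Quantified q B fun z => (C z).fn (out z) (G ⊔ noise y.2.1 y.1 ⊔ complete y.2.2))) :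
    W.card ≤ 4 * (t * 2 ^ (q + r)) * ((Q ^ (n + 1).choose 2) ^ J * n.choose k) := by
  classical
  obtain ⟨N, C', o, h1, h2, h3⟩ := quant_circuit q B C out
  obtain ⟨A, hA, y, hy, hAy⟩ := main hm hQ2 hL hk hnL hn hJ (show N ≤ 2 ^ l by omega) C' o G W (by
    intro y hy
    have h4 := (hW y hy).2
    refine ⟨(hW y hy).1, ?_⟩
    rw [h2, h2]
    exact h4)
  refine hA.trans (Nat.mul_le_mul_right _ (Nat.mul_le_mul_left _ ?_))
  let D : (Fin q → Bool) → Finset ℕ := fun z => @Finset.filter _ (fun a => ∃ i ∈ (C z).watched,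
    ¬ ((C z).fn i (y a) ↔ (C z).fn i (y (a + 1)))) (Classical.decPred _) (range A)
  have hD : range A ⊆ (univ : Finset (Fin q → Bool)).biUnion D := by
    intro a ha
    obtain ⟨w, hw, hne⟩ := hAy a (Finset.mem_range.1 ha)
    obtain ⟨z, i, hi, h4⟩ := h3 w hw
    rw [h4] at hne
    exact Finset.mem_biUnion.2 ⟨z, Finset.mem_univ _,
      (@Finset.mem_filter _ _ (Classical.decPred _) _ _).2 ⟨ha, i, hi, hne⟩⟩
  have hDz : ∀ z, (D z).card ≤ t * (2 ^ r - 1) := by
    intro z
    obtain ⟨g, hg, _, _, hg3⟩ := exists_subchain (C z) (C z).watched y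
      (fun J => @Finset.filter _ (fun j => ∃ i ∈ (C z).watched,
        ¬ ((C z).fn i (y j) ↔ (C z).fn i (y (j + 1)))) (Classical.decPred _) (range J))
      (fun J => rfl) A
    exact changes_le_few (C z) (hr z) (ht z) (y := fun a => y (g a))
      (fun a b hab => hy (hg hab)) hg3
  have hA1 : A ≤ 2 ^ q * (t * (2 ^ r - 1)) := by
    calc A = (range A).card := (Finset.card_range A).symm
      _ ≤ ((univ : Finset (Fin q → Bool)).biUnion D).card := Finset.card_le_card hD
      _ ≤ ∑ z : Fin q → Bool, (D z).card := Finset.card_biUnion_le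
      _ ≤ ∑ _z : Fin q → Bool, t * (2 ^ r - 1) := Finset.sum_le_sum fun z _ => hDz z
      _ = 2 ^ q * (t * (2 ^ r - 1)) := by
          rw [Finset.sum_const, Finset.card_univ, Fintype.card_fun, Fintype.card_bool,
            Fintype.card_fin, smul_eq_mul]
  obtain ⟨R, hR⟩ : ∃ R, 2 ^ r = R + 1 := ⟨2 ^ r - 1, by
    have : 1 ≤ 2 ^ r := Nat.one_le_two_pow
    omega⟩
  rw [hR, Nat.add_sub_cancel] at hA1
  have h5 : 1 ≤ 2 ^ q * t := Nat.one_le_iff_ne_zero.2 (Nat.mul_ne_zero (by positivity) (by omega))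
  calc A + 1 ≤ 2 ^ q * (t * R) + 2 ^ q * t := Nat.add_le_add hA1 h5
    _ = t * (2 ^ q * (R + 1)) := by ring
    _ = t * 2 ^ (q + r) := by rw [← hR, pow_add]

/-- Quantified circuits, without the trivial hypotheses. -/
theorem quantified' {q r t : ℕ} (hm : 2 ≤ m) (hQ2 : 2 ≤ Q) (hnL : n ≤ 2 ^ L)
    (hn : 9 * k * m ^ 2 * L * Q ^ (2 * m) ≤ n)
    (hJ : J * 2 ^ (2 * l + 3 * m + 4) ≤ Q ^ (m + 1) ^ 2) (hs : 2 ^ q * (s + 1) ≤ 2 ^ l)
    (B : Fin q → Bool) (C : (Fin q → Bool) → Circuit n s) (out : (Fin q → Bool) → Fin s)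
    (ht0 : 1 ≤ t) (hr : ∀ z, (C z).special.card ≤ r)
    (ht : ∀ z, ∀ i ∈ (C z).special, ((C z).ins i).card ≤ t) (G : SimpleGraph (Fin n))
    (W : Finset (Fin J × (Fin J → Sym2 (Fin n) → Fin Q) × Finset (Fin n)))
    (hW : ∀ y ∈ W, y.2.2.card = k ∧
      ¬ (Quantified q B (fun z => (C z).fn (out z) (G ⊔ noise y.2.1 y.1)) ↔
        Quantified q B fun z => (C z).fn (out z) (G ⊔ noise y.2.1 y.1 ⊔ complete y.2.2))) :
    W.card ≤ 4 * (t * 2 ^ (q + r)) * ((Q ^ (n + 1).choose 2) ^ J * n.choose k) := by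
  rcases W.eq_empty_or_nonempty with hW0 | ⟨y, hy⟩
  · rw [hW0, Finset.card_empty]
    exact Nat.zero_le _
  obtain ⟨h1, h2⟩ := hW y hy
  have h3 : ¬ y.2.2.card ≤ 1 := by
    intro h
    refine h2 ?_
    rw [complete_eq, cq_eq_bot h, sup_bot_eq]
  have hk : 1 ≤ k := by omega
  have hL : 1 ≤ L := by
    by_contra hcon
    have h4 : L = 0 := by omega
    rw [h4, pow_zero] at hnL
    have h5 : y.2.2.card ≤ n := by
      refine (Finset.card_le_univ _).trans ?_
      rw [Fintype.card_fin]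
    omega
  exact quantified hm hQ2 hL hk hnL hn hJ hs B C out ht0 hr ht G W hW

/-- Few noise graphs contain a clique. -/
theorem nc_noise_clique [NeZero Q] :
    nc (fun x : Fin J → Sym2 (Fin n) → Fin Q => ¬ (noise x J).CliqueFree k) *
      Q ^ (k.choose 2) ≤ n.choose k * (J ^ (k.choose 2) * (Q ^ (n + 1).choose 2) ^ J) := by
  classical
  have h1 := nc_not_cliqueFree_le (idb n J) J (by
    intro e _
    rw [nc_eq]
    have h2 : (univ.filter fun p : Fin J × Sym2 (Fin n) => Sym2.map (idb n J p.1) p.2 = e) ⊆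
        univ.image fun j : Fin J => (j, e) := by
      intro p hp
      have h3 := (Finset.mem_filter.1 hp).2
      have h4 : Sym2.map (idb n J p.1) p.2 = p.2 := by
        show Sym2.map id p.2 = p.2
        rw [Sym2.map_id]
        rfl
      rw [h4] at h3
      exact Finset.mem_image.2 ⟨p.1, Finset.mem_univ _, Prod.ext rfl h3.symm⟩
    refine (Finset.card_le_card h2).trans (Finset.card_image_le.trans ?_)
    rw [Finset.card_univ, Fintype.card_fin]) ({0} : Finset (Fin Q)) k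
  rw [Fintype.card_fin, Finset.card_singleton, one_pow, one_mul] at h1
  have hΩc : Fintype.card (Fin J → Sym2 (Fin n) → Fin Q) = (Q ^ (n + 1).choose 2) ^ J := by
    rw [Fintype.card_fun, Fintype.card_fun, Sym2.card, Fintype.card_fin, Fintype.card_fin,
      Fintype.card_fin]
  rw [hΩc] at h1
  refine le_trans (le_of_eq ?_) h1
  refine congrArg (· * Q ^ (k.choose 2)) (nc_congr fun x => ?_)
  rw [noise_eq]

/-- The correlation with the clique property. -/
theorem correlation [NeZero Q] (f : SimpleGraph (Fin n) → Prop) (X : ℕ)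
    (hX : ∀ W : Finset (Fin J × (Fin J → Sym2 (Fin n) → Fin Q) × Finset (Fin n)),
      (∀ y ∈ W, y.2.2.card = k ∧ ¬ (f (noise y.2.1 y.1) ↔
        f (noise y.2.1 y.1 ⊔ complete y.2.2))) → W.card ≤ X)
    (Z : Finset ((Fin J × (Fin J → Sym2 (Fin n) → Fin Q) × Finset (Fin n)) × Bool))
    (hZ : ∀ z ∈ Z, z.1.2.2.card = k ∧
      (f (noise z.1.2.1 z.1.1 ⊔ if z.2 then complete z.1.2.2 else ⊥) ↔
        ¬ (noise z.1.2.1 z.1.1 ⊔ if z.2 then complete z.1.2.2 else ⊥).CliqueFree k)) :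
    Q ^ k.choose 2 * Z.card ≤
      Q ^ k.choose 2 * (J * ((Q ^ (n + 1).choose 2) ^ J * n.choose k) + X) +
        n.choose k * J ^ k.choose 2 * (J * ((Q ^ (n + 1).choose 2) ^ J * n.choose k)) := by
  classical
  set D : ℕ := (Q ^ (n + 1).choose 2) ^ J * n.choose k with hD
  let Y := Fin J × (Fin J → Sym2 (Fin n) → Fin Q) × Finset (Fin n)
  let Z₀ : Finset Y := univ.filter fun y => (y, false) ∈ Z
  let Z₁ : Finset Y := univ.filter fun y => (y, true) ∈ Z
  have hm₀ : ∀ y : Y, y ∈ Z₀ ↔ (y, false) ∈ Z := fun y => by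
    show y ∈ univ.filter _ ↔ _
    rw [Finset.mem_filter]
    exact ⟨fun h => h.2, fun h => ⟨Finset.mem_univ _, h⟩⟩
  have hm₁ : ∀ y : Y, y ∈ Z₁ ↔ (y, true) ∈ Z := fun y => by
    show y ∈ univ.filter _ ↔ _
    rw [Finset.mem_filter]
    exact ⟨fun h => h.2, fun h => ⟨Finset.mem_univ _, h⟩⟩
  have hcardZ : Z.card ≤ Z₀.card + Z₁.card := by
    have h1 : Z ⊆ Z₀.map ⟨fun y => (y, false), fun _ _ h => (Prod.ext_iff.1 h).1⟩ ∪
        Z₁.map ⟨fun y => (y, true), fun _ _ h => (Prod.ext_iff.1 h).1⟩ := by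
      rintro ⟨y, b⟩ hz
      rw [Finset.mem_union, Finset.mem_map, Finset.mem_map]
      cases b
      · exact Or.inl ⟨y, (hm₀ y).2 hz, rfl⟩
      · exact Or.inr ⟨y, (hm₁ y).2 hz, rfl⟩
    refine (Finset.card_le_card h1).trans ((Finset.card_union_le _ _).trans ?_)
    rw [Finset.card_map, Finset.card_map]
  -- the whole space
  let T : Finset Y := (univ : Finset (Fin J)) ×ˢ
    ((univ : Finset (Fin J → Sym2 (Fin n) → Fin Q)) ×ˢ powersetCard k univ)
  have hΩc : Fintype.card (Fin J → Sym2 (Fin n) → Fin Q) = (Q ^ (n + 1).choose 2) ^ J := by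
    rw [Fintype.card_fun, Fintype.card_fun, Sym2.card, Fintype.card_fin, Fintype.card_fin,
      Fintype.card_fin]
  have hT : T.card = J * D := by
    show ((univ : Finset (Fin J)) ×ˢ _).card = _
    rw [Finset.card_product, Finset.card_product, Finset.card_univ, Fintype.card_fin,
      Finset.card_univ, hΩc, Finset.card_powersetCard, Finset.card_univ, Fintype.card_fin]
  have hun : Z₀ ∪ Z₁ ⊆ T := by
    intro y hy
    have hk : y.2.2.card = k := by
      rcases Finset.mem_union.1 hy with hy | hy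
      · exact (hZ _ ((hm₀ y).1 hy)).1
      · exact (hZ _ ((hm₁ y).1 hy)).1
    exact Finset.mem_product.2 ⟨Finset.mem_univ _, Finset.mem_product.2
      ⟨Finset.mem_univ _, Finset.mem_powersetCard.2 ⟨Finset.subset_univ _, hk⟩⟩⟩
  -- both answers are correct
  let W : Finset Y := (Z₀ ∩ Z₁).filter fun y => (noise y.2.1 y.1).CliqueFree k
  let U : Finset Y := (univ : Finset (Fin J)) ×ˢ
    ((univ.filter fun x : Fin J → Sym2 (Fin n) → Fin Q => ¬ (noise x J).CliqueFree k) ×ˢ
      powersetCard k univ)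
  have hW : W.card ≤ X := by
    refine hX W fun y hy => ?_
    obtain ⟨h1, h2⟩ := Finset.mem_filter.1 hy
    obtain ⟨h3, h4⟩ := Finset.mem_inter.1 h1
    obtain ⟨h5, h6⟩ := hZ _ ((hm₀ y).1 h3)
    obtain ⟨_, h7⟩ := hZ _ ((hm₁ y).1 h4)
    refine ⟨h5, fun hiff => ?_⟩
    simp only [Bool.false_eq_true, if_false, sup_bot_eq] at h6
    simp only [if_true] at h7
    have h8 : ¬ f (noise y.2.1 y.1) := fun h => h6.1 h h2
    refine h8 (hiff.2 (h7.2 ?_))
    intro hf
    refine hf y.2.2 ⟨?_, h5⟩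
    rw [complete_eq]
    exact fun a ha b hb hab => Or.inr ⟨hab, ha, hb⟩
  have hint : Z₀ ∩ Z₁ ⊆ W ∪ U := by
    intro y hy
    by_cases hcf : (noise y.2.1 y.1).CliqueFree k
    · exact Finset.mem_union_left _ (Finset.mem_filter.2 ⟨hy, hcf⟩)
    · refine Finset.mem_union_right _ (Finset.mem_product.2 ⟨Finset.mem_univ _,
        Finset.mem_product.2 ⟨Finset.mem_filter.2 ⟨Finset.mem_univ _, fun h => hcf ?_⟩, ?_⟩⟩)
      · refine h.anti ?_
        rw [noise_eq, noise_eq]
        exact pre_mono _ y.1.2.le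
      · exact (Finset.mem_product.1 (Finset.mem_product.1
          (hun (Finset.mem_union_left _ (Finset.mem_inter.1 hy).1))).2).2
  have hU : U.card * Q ^ k.choose 2 ≤ n.choose k * J ^ k.choose 2 * (J * D) := by
    show ((univ : Finset (Fin J)) ×ˢ _).card * _ ≤ _
    rw [Finset.card_product, Finset.card_product, Finset.card_univ, Fintype.card_fin,
      ← nc_eq, Finset.card_powersetCard, Finset.card_univ, Fintype.card_fin]
    have h1 := nc_noise_clique (n := n) (k := k) (Q := Q) (J := J)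
    calc J * (nc (fun x : Fin J → Sym2 (Fin n) → Fin Q => ¬ (noise x J).CliqueFree k) *
          n.choose k) * Q ^ k.choose 2
        = J * n.choose k * (nc (fun x : Fin J → Sym2 (Fin n) → Fin Q =>
          ¬ (noise x J).CliqueFree k) * Q ^ k.choose 2) := by ring
      _ ≤ J * n.choose k * (n.choose k * (J ^ (k.choose 2) * (Q ^ (n + 1).choose 2) ^ J)) :=
          Nat.mul_le_mul_left _ h1
      _ = _ := by
          rw [hD]
          ring
  have hsum : Z₀.card + Z₁.card ≤ J * D + (X + U.card) := by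
    rw [← Finset.card_union_add_card_inter]
    refine Nat.add_le_add ((Finset.card_le_card hun).trans hT.le) ?_
    exact (Finset.card_le_card hint).trans ((Finset.card_union_le _ _).trans
      (Nat.add_le_add_right hW _))
  calc Q ^ k.choose 2 * Z.card ≤ Q ^ k.choose 2 * (J * D + (X + U.card)) :=
        Nat.mul_le_mul_left _ (hcardZ.trans hsum)
    _ = Q ^ k.choose 2 * (J * D + X) + U.card * Q ^ k.choose 2 := by ring
    _ ≤ _ := Nat.add_le_add_left hU _

end

end Pool.Agent.H25.PN
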