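import Pool.Agent.H25.PN.Sub
import Pool.Agent.H25.PN.Defs
import Pool.Agent.H25.PC.Avg
import Pool.Agent.H25.PC.Last

/-!
The chain argument for noise on the whole vertex set.
-/

namespace Pool.Agent.H25.PN

open Finset
open Pool.Agent.H25.NM Pool.Agent.H25.NP Pool.Agent.H25.PC

set_option linter.unusedSectionVars false

/-- All blocks are the whole vertex set. -/
def idb (n J : ℕ) : Fin J → Fin n ↪ Fin n := fun _ => Function.Embedding.refl _

theorem map_refl {n : ℕ} (G : SimpleGraph (Fin n)) :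
    G.map (Function.Embedding.refl (Fin n)) = G := by
  ext u v
  rw [SimpleGraph.map_adj]
  constructor
  · rintro ⟨a, b, h, rfl, rfl⟩
    exact h
  · intro h
    exact ⟨u, v, h, rfl, rfl⟩

theorem noise_eq {n J Q : ℕ} [NeZero Q] (x : Fin J → Sym2 (Fin n) → Fin Q) (j : ℕ) :
    noise x j = pre (idb n J) (gr {0}) x j := by
  ext u v
  unfold noise
  rw [SimpleGraph.fromEdgeSet_adj]
  constructor
  · rintro ⟨⟨i, hi, h⟩, huv⟩
    refine ⟨i, hi, ?_⟩
    show ((gr {0} (x i)).map (Function.Embedding.refl (Fin n))).Adj u v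
    rw [map_refl]
    exact ⟨huv, Finset.mem_singleton.2 (Fin.ext h)⟩
  · rintro ⟨i, hi, h⟩
    have h' : ((gr {0} (x i)).map (Function.Embedding.refl (Fin n))).Adj u v := h
    rw [map_refl] at h'
    refine ⟨⟨i, hi, ?_⟩, h'.1⟩
    rw [Finset.mem_singleton.1 h'.2]
    rfl

theorem complete_eq {n : ℕ} (A : Finset (Fin n)) : complete A = cq A := clique_eq A

section

variable {n L l k Q J s m : ℕ}

/-- **Main theorem.** -/
theorem main (hm : 2 ≤ m) (hQ2 : 2 ≤ Q) (hL : 1 ≤ L) (hk : 1 ≤ k) (hnL : n ≤ 2 ^ L)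
    (hn : 9 * k * m ^ 2 * L * Q ^ (2 * m) ≤ n)
    (hJ : J * 2 ^ (2 * l + 3 * m + 4) ≤ Q ^ (m + 1) ^ 2) (hs : s ≤ 2 ^ l)
    (C : Circuit n s) (out : Fin s) (G : SimpleGraph (Fin n))
    (W : Finset (Fin J × (Fin J → Sym2 (Fin n) → Fin Q) × Finset (Fin n)))
    (hW : ∀ y ∈ W, y.2.2.card = k ∧ ¬ (C.fn out (G ⊔ noise y.2.1 y.1) ↔
      C.fn out (G ⊔ noise y.2.1 y.1 ⊔ complete y.2.2))) :
    ∃ A : ℕ, W.card ≤ 4 * (A + 1) * ((Q ^ (n + 1).choose 2) ^ J * n.choose k) ∧
      ∃ y : ℕ → SimpleGraph (Fin n), Monotone y ∧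
        ∀ a < A, ∃ i ∈ C.watched, ¬ (C.fn i (y a) ↔ C.fn i (y (a + 1))) := by
  classical
  have : NeZero Q := ⟨by omega⟩
  have : NeZero (3 * (m * L)) :=
    ⟨Nat.mul_ne_zero (by omega) (Nat.mul_ne_zero (by omega) (by omega))⟩
  -- the size of the space
  have hΩc : Fintype.card (Fin J → Sym2 (Fin n) → Fin Q) = (Q ^ (n + 1).choose 2) ^ J := by
    rw [Fintype.card_fun, Fintype.card_fun, Sym2.card, Fintype.card_fin, Fintype.card_fin,
      Fintype.card_fin]
  have hw1 : 1 ≤ 3 * m * (3 * (m * L)) * Q ^ (2 * m) := by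
    have : Q ≠ 0 := by omega
    exact Nat.one_le_iff_ne_zero.2 (by positivity)
  have hkw : k * (3 * m * (3 * (m * L)) * Q ^ (2 * m)) ≤ n := by
    refine le_trans (le_of_eq ?_) hn
    ring
  have hkn : k ≤ n := by
    refine le_trans ?_ hkw
    exact Nat.le_mul_of_pos_right k hw1
  have hD1 : 1 ≤ (Q ^ (n + 1).choose 2) ^ J * n.choose k := by
    have hQ0 : Q ≠ 0 := by omega
    exact Nat.one_le_iff_ne_zero.2 (Nat.mul_ne_zero (by positivity) (Nat.choose_pos hkn).ne')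
  set D : ℕ := (Q ^ (n + 1).choose 2) ^ J * n.choose k with hD
  have hB0 := blockHyp_sub (A₀ := Fin Q) 0 (g := 3 * (m * L)) (Fintype.card_fin Q) hQ2 m
    (by omega) hkw le_rfl
  -- the least number of changes that is compatible with the bound
  have hex : ∃ A : ℕ, W.card ≤ 4 * (A + 1) * D := by
    refine ⟨W.card, ?_⟩
    calc W.card ≤ 4 * (W.card + 1) * 1 := by omega
      _ ≤ 4 * (W.card + 1) * D := Nat.mul_le_mul_left _ hD1
  refine ⟨Nat.find hex, Nat.find_spec hex, ?_⟩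
  rcases Nat.eq_zero_or_pos (Nat.find hex) with h0 | h0
  · rw [h0]
    exact ⟨fun _ => ⊥, fun _ _ _ => le_rfl, fun a ha => by omega⟩
  obtain ⟨B, hB⟩ : ∃ B, Nat.find hex = B + 1 := ⟨Nat.find hex - 1, by omega⟩
  by_contra hcon
  push Not at hcon
  refine Nat.find_min hex (m := B) (by omega) ?_
  rw [hB] at hcon
  have hchg : ∀ (J : ℕ) (x : ℕ → SimpleGraph (Fin n)), Monotone x →
      nc (fun j : Fin J => ∃ i ∈ C.watched, ¬ (C.fn i (x j.1) ↔ C.fn i (x (j.1 + 1)))) ≤ B := by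
    intro J X hXm
    by_contra hcon'
    have hcon' := not_le.1 hcon'
    rw [nc_fin_eq J fun j => ∃ i ∈ C.watched, ¬ (C.fn i (X j) ↔ C.fn i (X (j + 1)))] at hcon'
    obtain ⟨g, hg, _, _, hg3⟩ := exists_subchain C C.watched X
      (fun J => @Finset.filter _ (fun j => ∃ i ∈ C.watched,
        ¬ (C.fn i (X j) ↔ C.fn i (X (j + 1)))) (Classical.decPred _) (range J))
      (fun J => rfl) J
    obtain ⟨a, ha, h4⟩ := hcon (fun a => X (g a)) (fun a b hab => hXm (hg hab))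
    obtain ⟨i, hi, hne⟩ := hg3 a (by omega)
    exact hne (h4 i hi)
  -- the detectors
  set I : Finset (Fin s) := insert out C.watched with hI
  choose F hF1 hF2 hF3 using C.exists_detector I (Finset.subset_insert _ _)
  set s' : ℕ := (s + 1) * (s + 2) with hs'
  set η : ℝ := (1 / Q : ℝ) ^ ((m + 1) ^ 2) with hη
  set ε : ℝ := s' * ((m + 1) ^ 2 * 2 ^ m * η + small (Fin n) m / ((3 ^ (3 * (m * L)) : ℕ) : ℝ))
    with hε
  have hF' : ∀ H : SimpleGraph (Fin n), MonoSize s' fun x => F (G ⊔ H) (G ⊔ x) := by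
    intro H
    have h1 := (hF1 (G ⊔ H)).restrict (Function.Embedding.refl (Fin n)) G
    have h2 : (fun x : SimpleGraph (Fin n) =>
        F (G ⊔ H) (G ⊔ x.map (Function.Embedding.refl (Fin n)))) =
        fun x => F (G ⊔ H) (G ⊔ x) := by
      funext x
      rw [map_refl]
    rw [h2] at h1
    exact h1
  have hmain := chain_avg (φ := idb n J) (ε := ε)
    (fun F hF => hB0.main hm hF) hF' (a := 2 * B + 1) (fun ω => by
      have h1 := out_changes C out (X := fun j => G ⊔ pre (idb n J) (gr {0}) ω j)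
        (fun _ _ h => sup_le_sup_left (pre_mono ω h) G) J
      have h2 := hchg J (fun j => G ⊔ pre (idb n J) (gr {0}) ω j)
        (fun _ _ h => sup_le_sup_left (pre_mono ω h) G)
      refine le_trans (nc_mono fun j hj => ?_) (h1.trans (by omega))
      exact (hF3 _ _ (sup_le_sup_left (pre_mono ω (Nat.le_succ j.1)) G)).1 hj)
  -- the error term
  have hQ0 : (0 : ℝ) < Q := by
    exact_mod_cast (by omega : 0 < Q)
  have hss := size_le hs
  have hmm : m + 1 ≤ 2 ^ m := Nat.lt_two_pow_self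
  have he1 : 2 * (J * s' * ((m + 1) ^ 2 * 2 ^ m)) ≤ Q ^ (m + 1) ^ 2 := by
    calc 2 * (J * s' * ((m + 1) ^ 2 * 2 ^ m))
        ≤ 2 * (J * 2 ^ (2 * l + 3) * ((2 ^ m) ^ 2 * 2 ^ m)) := by
          refine Nat.mul_le_mul_left _ (Nat.mul_le_mul (Nat.mul_le_mul_left _ hss)
            (Nat.mul_le_mul_right _ (Nat.pow_le_pow_left hmm 2)))
      _ = J * 2 ^ (2 * l + 3 * m + 4) := by
          rw [pow_add, pow_add, pow_add, mul_comm 3 m, pow_mul 2 m 3]
          ring
      _ ≤ Q ^ (m + 1) ^ 2 := hJ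
  have he2 : 2 * (J * s' * (n + 1) ^ m) ≤ 3 ^ (3 * (m * L)) := by
    have g1 : Q ^ (2 * m) ≤ 2 ^ L := by
      refine le_trans ?_ (hn.trans hnL)
      have : 1 ≤ 9 * k * m ^ 2 * L := Nat.one_le_iff_ne_zero.2 (by positivity)
      exact Nat.le_mul_of_pos_left _ this
    have g2 : J * 2 ^ (2 * l + 4) ≤ 2 ^ (2 * (m * L)) := by
      calc J * 2 ^ (2 * l + 4) ≤ J * 2 ^ (2 * l + 3 * m + 4) :=
            Nat.mul_le_mul_left _ (Nat.pow_le_pow_right (by norm_num) (by omega))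
        _ ≤ Q ^ (m + 1) ^ 2 := hJ
        _ ≤ Q ^ (2 * m * (2 * m)) := by
            refine Nat.pow_le_pow_right (by omega) ?_
            nlinarith
        _ = (Q ^ (2 * m)) ^ (2 * m) := by rw [pow_mul]
        _ ≤ (2 ^ L) ^ (2 * m) := Nat.pow_le_pow_left g1 _
        _ = 2 ^ (2 * (m * L)) := by
            rw [← pow_mul]
            congr 1
            ring
    have g3 : (n + 1) ^ m ≤ 2 ^ (2 * (m * L)) := by
      have h1 : n + 1 ≤ 2 ^ (L + 1) := by
        rw [pow_succ]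
        have : 1 ≤ 2 ^ L := Nat.one_le_two_pow
        omega
      calc (n + 1) ^ m ≤ (2 ^ (L + 1)) ^ m := Nat.pow_le_pow_left h1 m
        _ = 2 ^ ((L + 1) * m) := by rw [← pow_mul]
        _ ≤ 2 ^ (2 * (m * L)) := by
            refine Nat.pow_le_pow_right (by norm_num) ?_
            have : m * 1 ≤ m * L := Nat.mul_le_mul_left _ hL
            calc (L + 1) * m = m * L + m * 1 := by ring
              _ ≤ 2 * (m * L) := by omega
    calc 2 * (J * s' * (n + 1) ^ m) ≤ 2 * (J * 2 ^ (2 * l + 3) * 2 ^ (2 * (m * L))) :=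
          Nat.mul_le_mul_left _ (Nat.mul_le_mul (Nat.mul_le_mul_left _ hss) g3)
      _ = J * 2 ^ (2 * l + 4) * 2 ^ (2 * (m * L)) := by
          rw [pow_succ 2 (2 * l + 3)]
          ring
      _ ≤ 2 ^ (2 * (m * L)) * 2 ^ (2 * (m * L)) := Nat.mul_le_mul_right _ g2
      _ = 16 ^ (m * L) := by
          rw [← pow_add, (by norm_num : 16 = 2 ^ 4), ← pow_mul]
          congr 1
          ring
      _ ≤ 27 ^ (m * L) := Nat.pow_le_pow_left (by norm_num) _
      _ = 3 ^ (3 * (m * L)) := by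
          rw [(by norm_num : 27 = 3 ^ 3), ← pow_mul]
  have hJε : (J : ℝ) * ε ≤ 1 := by
    rw [hε]
    have g1 : (J : ℝ) * (s' * ((m + 1) ^ 2 * 2 ^ m * η)) ≤ 1 / 2 := by
      have e1 : (2 : ℝ) * ((J : ℝ) * s' * ((m + 1) ^ 2 * 2 ^ m)) ≤ (Q : ℝ) ^ (m + 1) ^ 2 := by
        exact_mod_cast he1
      have e2 : η * (Q : ℝ) ^ (m + 1) ^ 2 = 1 := by
        rw [hη, ← mul_pow, one_div_mul_cancel hQ0.ne', one_pow]
      have e3 : (0 : ℝ) ≤ η := by
        rw [hη]
        positivity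
      have e4 := mul_le_mul_of_nonneg_left e1 e3
      rw [e2] at e4
      linarith
    have g2 : (J : ℝ) * (s' * (small (Fin n) m / ((3 ^ (3 * (m * L)) : ℕ) : ℝ))) ≤ 1 / 2 := by
      have e1 : (J : ℝ) * (s' * (small (Fin n) m / ((3 ^ (3 * (m * L)) : ℕ) : ℝ))) =
          (2 * (J : ℝ) * s' * small (Fin n) m) / ((3 ^ (3 * (m * L)) : ℕ) : ℝ) / 2 := by
        ring
      rw [e1]
      have e2 : (2 * (J : ℝ) * s' * small (Fin n) m) / ((3 ^ (3 * (m * L)) : ℕ) : ℝ) ≤ 1 := by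
        rw [div_le_one (by positivity)]
        have e3 := small_le (Fin n) m
        rw [Fintype.card_fin] at e3
        have e4 : 2 * J * s' * small (Fin n) m ≤ 3 ^ (3 * (m * L)) := by
          refine le_trans ?_ he2
          calc 2 * J * s' * small (Fin n) m ≤ 2 * J * s' * (n + 1) ^ m :=
                Nat.mul_le_mul_left _ e3
            _ = _ := by ring
        exact_mod_cast e4
      linarith
    have g3 : (J : ℝ) * (s' * ((m + 1) ^ 2 * 2 ^ m * η +
        small (Fin n) m / ((3 ^ (3 * (m * L)) : ℕ) : ℝ))) =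
        (J : ℝ) * (s' * ((m + 1) ^ 2 * 2 ^ m * η)) +
        (J : ℝ) * (s' * (small (Fin n) m / ((3 ^ (3 * (m * L)) : ℕ) : ℝ))) := by
      ring
    rw [g3]
    linarith
  -- from the family to the detectors
  have hsum : W.card ≤ ∑ j : Fin J, nc (fun x : Sub n k × (Fin J → Sym2 (Fin n) → Fin Q) =>
        F (G ⊔ pre (idb n J) (gr {0}) x.2 j.1)
          (G ⊔ (pre (idb n J) (gr {0}) x.2 j.1 ⊔ (cq x.1.1).map (idb n J j)))) := by
    have h1 := nc_prod fun (j : Fin J) (x : Sub n k × (Fin J → Sym2 (Fin n) → Fin Q)) =>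
      F (G ⊔ pre (idb n J) (gr {0}) x.2 j.1)
          (G ⊔ (pre (idb n J) (gr {0}) x.2 j.1 ⊔ (cq x.1.1).map (idb n J j)))
    rw [← h1, nc_eq]
    -- injection
    refine Finset.card_le_card_of_injOn (fun y => (y.1, (if h : y.2.2.card = k then
      (⟨y.2.2, h⟩ : Sub n k) else ⟨(univ.map (Fin.castLEEmb hkn)), by
        rw [Finset.card_map, Finset.card_univ, Fintype.card_fin]⟩), y.2.1)) ?_ ?_
    · intro y hy
      have hy' := Finset.mem_coe.1 hy
      obtain ⟨h2, h3⟩ := hW y hy'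
      refine Finset.mem_coe.2 (Finset.mem_filter.2 ⟨Finset.mem_univ _, ?_⟩)
      simp only
      rw [dif_pos h2]
      rw [hF3 _ _ (sup_le_sup_left le_sup_left G)]
      refine ⟨out, Finset.mem_insert_self _ _, ?_⟩
      rw [noise_eq, complete_eq] at h3
      have h4 : (cq y.2.2).map (idb n J y.1) = cq y.2.2 := map_refl _
      rw [h4, ← sup_assoc]
      exact h3
    · intro y hy z hz hyz
      have hy' := (hW y (Finset.mem_coe.1 hy)).1
      have hz' := (hW z (Finset.mem_coe.1 hz)).1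
      simp only at hyz
      rw [dif_pos hy', dif_pos hz'] at hyz
      obtain ⟨h1, h2⟩ := Prod.ext_iff.1 hyz
      obtain ⟨h3, h4⟩ := Prod.ext_iff.1 h2
      exact Prod.ext h1 (Prod.ext h4 (congrArg Subtype.val h3))
  have hmain2 : (∑ j : Fin J, nc (fun x : Sub n k × (Fin J → Sym2 (Fin n) → Fin Q) =>
        F (G ⊔ pre (idb n J) (gr {0}) x.2 j.1)
          (G ⊔ (pre (idb n J) (gr {0}) x.2 j.1 ⊔ (cq x.1.1).map (idb n J j))))) ≤
      (4 * B + 3) * D := by
    have h1 : ((∑ j : Fin J, nc (fun x : Sub n k × (Fin J → Sym2 (Fin n) → Fin Q) =>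
        F (G ⊔ pre (idb n J) (gr {0}) x.2 j.1)
          (G ⊔ (pre (idb n J) (gr {0}) x.2 j.1 ⊔ (cq x.1.1).map (idb n J j)))) : ℕ) : ℝ) ≤
        (((4 * B + 3) * D : ℕ) : ℝ) := by
      rw [hD, ← hΩc, ← card_sub n k]
      push_cast
      refine hmain.trans ?_
      rw [mul_comm (Fintype.card (Fin J → Sym2 (Fin n) → Fin Q) : ℝ)]
      refine mul_le_mul_of_nonneg_right ?_ (by positivity)
      push_cast
      linarith
    exact_mod_cast h1
  calc W.card ≤ (4 * B + 3) * D := hsum.trans hmain2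
    _ ≤ 4 * (B + 1) * D := Nat.mul_le_mul_right _ (by omega)

end

end Pool.Agent.H25.PN
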