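import Pool.Agent.H25.PC.Hyp

/-!
Uniform random sets of `k` vertices and random graphs of density `1 / Q` satisfy the hypotheses of
the block lemma.
-/

namespace Pool.Agent.H25.PN

open Finset
open Pool.Agent.H25.NM Pool.Agent.H25.PC

set_option linter.unusedSectionVars false

/-- The sets of `k` vertices. -/
abbrev Sub (n k : ℕ) : Type := {A : Finset (Fin n) // A.card = k}

theorem card_sub (n k : ℕ) : Fintype.card (Sub n k) = n.choose k := by
  rw [Fintype.card_finset_len, Fintype.card_fin]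

theorem choose_mul_le : ∀ (t n k w : ℕ), t ≤ k → k * w ≤ n →
    (n - t).choose (k - t) * w ^ t ≤ n.choose k
  | 0, n, k, w, _, _ => by simp
  | t + 1, n, k, w, htk, hkw => by
    rcases Nat.eq_zero_or_pos w with hw | hw
    · rw [hw, zero_pow (by omega), mul_zero]
      exact Nat.zero_le _
    obtain ⟨k, rfl⟩ : ∃ k', k = k' + 1 := ⟨k - 1, by omega⟩
    obtain ⟨n, rfl⟩ : ∃ n', n = n' + 1 := ⟨n - 1, by
      have : 1 * 1 ≤ (k + 1) * w := Nat.mul_le_mul (by omega) hw
      omega⟩
    have h1 : k * w ≤ n := by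
      have : (k + 1) * w = k * w + w := by ring
      omega
    have ih := choose_mul_le t n k w (by omega) h1
    have h2 : n + 1 - (t + 1) = n - t := by omega
    have h3 : k + 1 - (t + 1) = k - t := by omega
    rw [h2, h3, pow_succ, ← mul_assoc]
    refine (Nat.mul_le_mul_right w ih).trans ?_
    have h4 : (n + 1) * n.choose k = (n + 1).choose (k + 1) * (k + 1) :=
      Nat.add_one_mul_choose_eq n k
    refine Nat.le_of_mul_le_mul_right ?_ (show 0 < k + 1 by omega)
    calc n.choose k * w * (k + 1) = n.choose k * ((k + 1) * w) := by ring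
      _ ≤ n.choose k * (n + 1) := Nat.mul_le_mul_left _ hkw
      _ = (n + 1).choose (k + 1) * (k + 1) := by rw [← h4, mul_comm]

/-- Uniform random sets are spread. -/
theorem nc_subset_sub {n k w : ℕ} (hkw : k * w ≤ n) (T : Finset (Fin n)) :
    nc (fun A : Sub n k => T ⊆ A.1) * w ^ T.card ≤ Fintype.card (Sub n k) := by
  classical
  rw [card_sub]
  by_cases hT : T.card ≤ k
  · refine le_trans (Nat.mul_le_mul_right _ ?_) (choose_mul_le T.card n k w hT hkw)
    rw [nc_eq]
    have h1 : (powersetCard (k - T.card) (univ \ T)).card = (n - T.card).choose (k - T.card) := by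
      rw [Finset.card_powersetCard, Finset.card_sdiff_of_subset (Finset.subset_univ _),
        Finset.card_univ, Fintype.card_fin]
    rw [← h1]
    refine Finset.card_le_card_of_injOn (fun A => A.1 \ T) ?_ ?_
    · intro A hA
      have h2 := (Finset.mem_filter.1 (Finset.mem_coe.1 hA)).2
      refine Finset.mem_coe.2 (Finset.mem_powersetCard.2
        ⟨Finset.sdiff_subset_sdiff (Finset.subset_univ _) (Finset.Subset.refl _), ?_⟩)
      rw [Finset.card_sdiff_of_subset h2, A.2]
    · intro A hA B hB hAB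
      have hA' := (Finset.mem_filter.1 (Finset.mem_coe.1 hA)).2
      have hB' := (Finset.mem_filter.1 (Finset.mem_coe.1 hB)).2
      refine Subtype.ext ?_
      have h3 : A.1 \ T = B.1 \ T := hAB
      rw [← Finset.sdiff_union_of_subset hA', h3, Finset.sdiff_union_of_subset hB']
  · rw [nc_false fun A hA => hT (by
      rw [← A.2]
      exact Finset.card_le_card hA)]
    simp

/-- The test graphs of density `1 / Q` satisfy the hypotheses of the block lemma. -/
theorem blockHyp_sub {A₀ : Type} [Fintype A₀] [DecidableEq A₀] (a₀ : A₀) {n k w g Q : ℕ}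
    [NeZero g] (hA : Fintype.card A₀ = Q) (hQ2 : 2 ≤ Q) (m : ℕ) (hm : 1 ≤ m)
    (hkw : k * w ≤ n) (hw : 3 * m * g * Q ^ (2 * m) ≤ w) :
    BlockHyp (gr {a₀} : (Sym2 (Fin n) → A₀) → SimpleGraph (Fin n))
      (Subtype.val : Sub n k → Finset (Fin n)) (3 ^ g)
      m w (fun b i => (((3 * m : ℕ) : ℝ) * g) ^ (b - i) * (Q : ℝ) ^ (b.choose 2 - i.choose 2))
      ((1 / Q : ℝ) ^ ((m + 1) ^ 2)) where
  hM := by positivity
  hw := by
    have h1 : g ≠ 0 := NeZero.ne g
    have h2 : Q ≠ 0 := by omega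
    have : 1 ≤ 3 * m * g * Q ^ (2 * m) := Nat.one_le_iff_ne_zero.2 (by positivity)
    omega
  hη := by positivity
  hP := fun T => by exact_mod_cast nc_subset_sub hkw T
  hN := fun S hS b hb I => by
    have hΛ : (1 : ℝ) ≤ ((3 * m : ℕ) : ℝ) := by
      exact_mod_cast (by omega : 1 ≤ 3 * m)
    have h2 := card_mins_half (g := g) a₀ m hΛ (one_add_pow_le hm) S hS b hb I
    rw [hA] at h2
    refine le_trans ?_ h2
    refine Nat.cast_le.2 (Finset.card_le_card fun T hT => ?_)
    simp only [Finset.mem_filter] at hT ⊢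
    exact hT
  hQ := by
    intro T hT1 hTm
    have h1 := nc_forall_eq (A := A₀) (ed T) fun _ => a₀
    rw [hA, card_ed] at h1
    have h2 : nc (fun x : Sym2 (Fin n) → A₀ => ∀ i ∈ ed T, x i = a₀) =
        nc (fun ω : Sym2 (Fin n) → A₀ => cq T ≤ gr {a₀} ω) := by
      refine nc_congr fun ω => ?_
      constructor
      · intro h u v huv
        exact ⟨huv.1, Finset.mem_singleton.2 (h s(u, v) (mem_ed.2 huv))⟩
      · intro h e he
        induction e using Sym2.ind with
        | _ u v => exact Finset.mem_singleton.1 (h (mem_ed.1 he)).2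
    rw [h2] at h1
    have h3 : Fintype.card (Sym2 (Fin n) → A₀) = Q ^ Fintype.card (Sym2 (Fin n)) := by
      rw [Fintype.card_fun, hA]
    have h4 := two_choose T.card
    have h5 : (3 * m * g) ^ T.card * Q ^ (T.card.choose 2) * 2 ^ T.card *
        Q ^ (T.card.choose 2) ≤ w ^ T.card := by
      calc (3 * m * g) ^ T.card * Q ^ (T.card.choose 2) * 2 ^ T.card * Q ^ (T.card.choose 2)
          ≤ (3 * m * g) ^ T.card * Q ^ (T.card.choose 2) * Q ^ T.card * Q ^ (T.card.choose 2) :=
            Nat.mul_le_mul_right _ (Nat.mul_le_mul_left _ (Nat.pow_le_pow_left hQ2 _))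
        _ = (3 * m * g) ^ T.card * Q ^ (2 * T.card.choose 2 + T.card) := by
            rw [pow_add, two_mul, pow_add]
            ring
        _ ≤ (3 * m * g) ^ T.card * (Q ^ (2 * m)) ^ T.card := by
            refine Nat.mul_le_mul_left _ ?_
            rw [h4, ← pow_mul]
            refine Nat.pow_le_pow_right (by omega) ?_
            have := Nat.mul_le_mul_right T.card hTm
            nlinarith
        _ = (3 * m * g * Q ^ (2 * m)) ^ T.card := by rw [mul_pow (3 * m * g)]
        _ ≤ w ^ T.card := Nat.pow_le_pow_left hw _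
    have h6 : (3 * m * g) ^ T.card * Q ^ (T.card.choose 2) * 2 ^ T.card *
        Fintype.card (Sym2 (Fin n) → A₀) ≤
        w ^ T.card * nc (fun ω : Sym2 (Fin n) → A₀ => cq T ≤ gr {a₀} ω) := by
      rw [h3, ← h1]
      calc (3 * m * g) ^ T.card * Q ^ (T.card.choose 2) * 2 ^ T.card *
            (nc (fun ω : Sym2 (Fin n) → A₀ => cq T ≤ gr {a₀} ω) * Q ^ (T.card.choose 2))
          = ((3 * m * g) ^ T.card * Q ^ (T.card.choose 2) * 2 ^ T.card *
              Q ^ (T.card.choose 2)) *
            nc (fun ω : Sym2 (Fin n) → A₀ => cq T ≤ gr {a₀} ω) := by ring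
        _ ≤ _ := Nat.mul_le_mul_right _ h5
    have h7 : (Nat.choose 0 2) = 0 := rfl
    simp only [Nat.sub_zero, h7]
    exact_mod_cast h6
  hE := by
    intro a ha j hj i hia hij hlt
    have hg0 : 0 < g := Nat.pos_of_ne_zero (NeZero.ne g)
    have hQ0 : (0 : ℝ) < Q := by
      exact_mod_cast (by omega : 0 < Q)
    have hQ1 : (1 : ℝ) ≤ Q := by
      exact_mod_cast (by omega : 1 ≤ Q)
    have h7 : (Nat.choose 0 2) = 0 := rfl
    simp only [Nat.sub_zero, h7]
    have hwR : (((3 * m : ℕ) : ℝ) * g) * (Q : ℝ) ^ (2 * m) ≤ w := by exact_mod_cast hw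
    have hx : (0 : ℝ) ≤ ((3 * m : ℕ) : ℝ) * g := by positivity
    have hex := expo ha hj hij hlt
    have e : a + (j - i) = a + j - i := by omega
    calc (((3 * m : ℕ) : ℝ) * g) ^ a * (Q : ℝ) ^ (a.choose 2) *
          ((((3 * m : ℕ) : ℝ) * g) ^ (j - i) * (Q : ℝ) ^ (j.choose 2 - i.choose 2))
        = (((3 * m : ℕ) : ℝ) * g) ^ (a + j - i) *
          (Q : ℝ) ^ (a.choose 2 + (j.choose 2 - i.choose 2)) := by
          rw [← e, pow_add, pow_add]
          ring
      _ = (((3 * m : ℕ) : ℝ) * g) ^ (a + j - i) * ((1 / Q : ℝ) ^ ((m + 1) ^ 2) *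
          (Q : ℝ) ^ (a.choose 2 + (j.choose 2 - i.choose 2) + (m + 1) ^ 2)) := by
          rw [pow_add (Q : ℝ) _ ((m + 1) ^ 2), one_div, inv_pow]
          field_simp
      _ ≤ (((3 * m : ℕ) : ℝ) * g) ^ (a + j - i) * ((1 / Q : ℝ) ^ ((m + 1) ^ 2) *
          (Q : ℝ) ^ (2 * m * (a + j - i))) := by
          gcongr
      _ = (1 / Q : ℝ) ^ ((m + 1) ^ 2) *
          ((((3 * m : ℕ) : ℝ) * g) * (Q : ℝ) ^ (2 * m)) ^ (a + j - i) := by
          rw [mul_pow _ ((Q : ℝ) ^ (2 * m)), ← pow_mul]
          ring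
      _ ≤ _ := by gcongr

end Pool.Agent.H25.PN
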